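import Mathlib

/-!
Area means of `log ‖f‖` for analytic functions.
-/

set_option autoImplicit false

open MeasureTheory Metric Set Filter Topology Real
open scoped ENNReal

namespace Pool.Agent.J4.H86.DZ

/-- polar coordinates about `c` -/
theorem lint_ball (F : ℂ → ℝ≥0∞) (hF : Measurable F) (c : ℂ) (s : ℝ) :
    ∫⁻ z in ball c s, F z =
      ∫⁻ r in Ioo 0 s, ENNReal.ofReal r * ∫⁻ θ in Ioo (-π) π, F (circleMap c r θ) := by
  have hpolar : ∀ p : ℝ × ℝ, Complex.polarCoord.symm p + c = circleMap c p.1 p.2 := by
    intro p
    rw [Complex.polarCoord_symm_apply]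
    simp only [circleMap, Complex.exp_mul_I, Complex.ofReal_cos, Complex.ofReal_sin]
    ring
  have hcm : Continuous fun p : ℝ × ℝ => circleMap c p.1 p.2 := by
    simp only [circleMap]; fun_prop
  have hm : Measurable fun p : ℝ × ℝ => ENNReal.ofReal p.1 *
      (ball c s).indicator F (circleMap c p.1 p.2) :=
    (ENNReal.measurable_ofReal.comp measurable_fst).mul
      ((hF.indicator measurableSet_ball).comp hcm.measurable)
  calc ∫⁻ z in ball c s, F z = ∫⁻ z, (ball c s).indicator F z :=
        (lintegral_indicator measurableSet_ball F).symm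
    _ = ∫⁻ z, (ball c s).indicator F (z + c) := (lintegral_add_right_eq_self _ c).symm
    _ = ∫⁻ p in polarCoord.target, ENNReal.ofReal p.1 •
          (ball c s).indicator F (Complex.polarCoord.symm p + c) :=
        (Complex.lintegral_comp_polarCoord_symm (fun z => (ball c s).indicator F (z + c))).symm
    _ = ∫⁻ p in Ioi (0:ℝ) ×ˢ Ioo (-π) π, ENNReal.ofReal p.1 *
          (ball c s).indicator F (circleMap c p.1 p.2) := by
        rw [polarCoord_target]
        refine lintegral_congr fun p => ?_
        rw [hpolar, smul_eq_mul]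
    _ = ∫⁻ r in Ioi (0:ℝ), ∫⁻ θ in Ioo (-π) π, ENNReal.ofReal r *
          (ball c s).indicator F (circleMap c r θ) := by
        rw [Measure.volume_eq_prod, ← Measure.prod_restrict]
        exact lintegral_prod _ hm.aemeasurable
    _ = ∫⁻ r in Ioi (0:ℝ), (Iio s).indicator
          (fun r => ENNReal.ofReal r * ∫⁻ θ in Ioo (-π) π, F (circleMap c r θ)) r := by
        refine setLIntegral_congr_fun measurableSet_Ioi fun r hr => ?_
        have hr0 : (0:ℝ) < r := hr
        have hn : ∀ θ, dist (circleMap c r θ) c = r := by
          intro θ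
          rw [dist_eq_norm, circleMap_sub_center, norm_circleMap_zero, abs_of_pos hr0]
        by_cases hrs : r < s
        · rw [indicator_of_mem (show r ∈ Iio s from hrs)]
          have h1 : ∀ θ, (ball c s).indicator F (circleMap c r θ) = F (circleMap c r θ) := by
            intro θ
            refine indicator_of_mem ?_ F
            rw [mem_ball, hn]
            exact hrs
          simp only [h1]
          exact lintegral_const_mul _ (hF.comp (continuous_circleMap c r).measurable)
        · rw [indicator_of_notMem (show r ∉ Iio s from hrs)]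
          have h1 : ∀ θ, (ball c s).indicator F (circleMap c r θ) = 0 := by
            intro θ
            refine indicator_of_notMem ?_ F
            rw [mem_ball, hn]
            exact hrs
          simp only [h1, mul_zero, lintegral_zero]
    _ = ∫⁻ r in Ioo 0 s, ENNReal.ofReal r * ∫⁻ θ in Ioo (-π) π, F (circleMap c r θ) := by
        rw [lintegral_indicator measurableSet_Iio, Measure.restrict_restrict measurableSet_Iio]
        congr 2
        ext x
        simp only [mem_inter_iff, mem_Iio, mem_Ioi, mem_Ioo]
        tauto

/-- circle means as integrals -/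
theorem avg_eq (u : ℂ → ℝ) (c : ℂ) (r : ℝ) :
    ∫ θ in Ioo (-π) π, u (circleMap c r θ) = 2 * π * Real.circleAverage u c r := by
  rw [Real.circleAverage_eq_integral_add (-Real.pi),
    intervalIntegral.integral_comp_add_right (fun x => u (circleMap c r x)),
    ← integral_Ioc_eq_integral_Ioo, ← intervalIntegral.integral_of_le (by
      linarith [Real.pi_pos])]
  have : (2 * Real.pi + -Real.pi) = Real.pi := by ring
  rw [this, zero_add, smul_eq_mul, ← mul_assoc]
  have hπ := Real.pi_pos
  have : 2 * π * (2 * π)⁻¹ = 1 := by field_simp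
  rw [this, one_mul]

theorem integrable_of_circle {u : ℂ → ℝ} {c : ℂ} {r : ℝ} (h : CircleIntegrable u c r) :
    IntegrableOn (fun θ => u (circleMap c r θ)) (Ioo (-π) π) := by
  have h1 : IntervalIntegrable (fun θ => u (circleMap c r θ)) volume (-π) π := by
    have h2 : IntervalIntegrable (fun θ => u (circleMap c r θ)) volume 0 (2 * π) := h
    have hper : Function.Periodic (fun θ => u (circleMap c r θ)) (2 * π) := by
      intro θ
      simp only [periodic_circleMap c r θ]
    have h3 := hper.intervalIntegrable (t := 0) (by positivity) (by simpa using h2) (-π) π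
    exact h3
  have h2 := (intervalIntegrable_iff_integrableOn_Ioo_of_le (by linarith [Real.pi_pos])).1 h1
  exact h2

/-- Jensen's inequality on circles -/
theorem jensen_circle {f : ℂ → ℂ} {c : ℂ} {r : ℝ} (hr : 0 < r)
    (hf : AnalyticOnNhd ℂ f (closedBall c r)) (h0 : f c ≠ 0) :
    Real.log ‖f c‖ ≤ Real.circleAverage (fun z => Real.log ‖f z‖) c r := by
  have hf' : AnalyticOnNhd ℂ f (closedBall c |r|) := by rwa [abs_of_pos hr]
  rw [AnalyticOnNhd.circleAverage_log_norm hr.ne' hf' h0]
  have h1 : 0 ≤ ∑ᶠ u, (MeromorphicOn.divisor f (closedBall c |r|)) u *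
      Real.log (r * ‖c - u‖⁻¹) := by
    refine finsum_nonneg fun u => ?_
    by_cases hu : u ∈ closedBall c |r|
    · have h2 : 0 ≤ MeromorphicOn.divisor f (closedBall c |r|) u :=
        MeromorphicOn.AnalyticOnNhd.divisor_nonneg hf' u
      have h3 : (0 : ℝ) ≤ (MeromorphicOn.divisor f (closedBall c |r|) u : ℤ) := by exact_mod_cast h2
      refine mul_nonneg h3 ?_
      rcases eq_or_ne (c - u) 0 with h | h
      · rw [h, norm_zero, inv_zero, mul_zero, Real.log_zero]
      · refine Real.log_nonneg ?_
        have h4 : 0 < ‖c - u‖ := norm_pos_iff.2 h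
        rw [← div_eq_mul_inv, le_div_iff₀ h4, one_mul]
        rw [mem_closedBall, abs_of_pos hr, dist_comm, dist_eq_norm] at hu
        exact hu
    · rw [Function.locallyFinsuppWithin.apply_eq_zero_of_notMem _ hu]
      simp
  linarith

end Pool.Agent.J4.H86.DZ
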