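import Pool.Agent.J4.H86.DZ.Mean
import Pool.Agent.W778.HI.D2

/-!
Bounds for quotients in a truncated sector: the denominator may have zeros.
-/

set_option autoImplicit false

open MeasureTheory Metric Set Filter Topology Real
open scoped ENNReal

namespace Pool.Agent.J4.H86.DZ

open Pool.Agent.W402.HI Pool.Agent.W778.HI.D2

/-- the balls of the side chain -/
theorem side_ball {θ ρ r s : ℝ} {z : ℂ} (hθ : 0 < θ) (hθ1 : θ ≤ 1) (hρ : 0 < ρ) (hρr : ρ ≤ r)
    (hρs : ρ ≤ s) (hsρ : s ≤ 4 / 3 * ρ) (hz : ‖z‖ = ρ) (hzθ : θ * |z.re| ≤ z.im)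
    (hzim : θ * ρ / 2 ≤ z.im) {t : ℝ} (ht0 : 0 ≤ t) (ht1 : t ≤ 1) :
    ball ((s : ℂ) * Complex.I + (t : ℂ) * (z - (s : ℂ) * Complex.I)) (θ * ρ / 8) ⊆
      Sect θ ρ r := by
  have hs0 : 0 < s := by linarith
  have hnormsI : ‖(s : ℂ) * Complex.I‖ = s := by
    rw [norm_mul, Complex.norm_I, mul_one, Complex.norm_real, Real.norm_of_nonneg hs0.le]
  set ζ : ℂ := (s : ℂ) * Complex.I + (t : ℂ) * (z - (s : ℂ) * Complex.I) with hζ
  have hζre : ζ.re = t * z.re := by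
    simp [hζ]
  have hζim : ζ.im = (1 - t) * s + t * z.im := by
    simp [hζ]; ring
  have hζn : ‖ζ‖ ≤ 4 / 3 * ρ := by
    have e : ζ = ((1 - t : ℝ) : ℂ) * ((s : ℂ) * Complex.I) + (t : ℂ) * z := by
      rw [hζ]; push_cast; ring
    rw [e]
    refine (norm_add_le _ _).trans ?_
    rw [norm_mul ((1 - t : ℝ) : ℂ), norm_mul (t : ℂ), hnormsI, hz, Complex.norm_real,
      Complex.norm_real, Real.norm_of_nonneg (show (0 : ℝ) ≤ 1 - t by linarith),
      Real.norm_of_nonneg ht0]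
    have : (1 - t) * s ≤ (1 - t) * (4 / 3 * ρ) :=
      mul_le_mul_of_nonneg_left hsρ (by linarith)
    nlinarith
  exact ball_side θ ρ r ζ hθ hθ1 hρ hρr
    (by
      rw [hζre, hζim, abs_mul, abs_of_nonneg ht0]
      have : t * (θ * |z.re|) ≤ t * z.im := mul_le_mul_of_nonneg_left hzθ ht0
      have h2 : 0 ≤ (1 - t) * s := mul_nonneg (by linarith) hs0.le
      nlinarith)
    (by
      rw [hζim]
      have h2 : θ * ρ / 2 ≤ s := by
        have : θ * ρ ≤ 1 * ρ := mul_le_mul_of_nonneg_right hθ1 hρ.le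
        linarith
      have h3 : (1 - t) * (θ * ρ / 2) ≤ (1 - t) * s :=
        mul_le_mul_of_nonneg_left h2 (by linarith)
      have h4 : t * (θ * ρ / 2) ≤ t * z.im := mul_le_mul_of_nonneg_left hzim ht0
      nlinarith) hζn

set_option maxHeartbeats 4000000 in
theorem sector {θ : ℝ} (hθ : 0 < θ) (hθ1 : θ ≤ 1) : ∃ C : ℝ, 0 ≤ C ∧
    ∀ (B : Type) [NormedAddCommGroup B] [NormedSpace ℂ B] (f : ℂ → ℂ) (h : ℂ → B) (r ρ M : ℝ),
    0 < ρ → ρ ≤ r → 0 ≤ M → DifferentiableOn ℂ f (Sect θ ρ r) → DifferentiableOn ℂ h (Sect θ ρ r) →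
    (∀ z ∈ Sect θ ρ r, ‖f z‖ ≤ Real.exp M) → (∀ z ∈ Sect θ ρ r, ‖f z‖ * ‖h z‖ ≤ Real.exp M) →
    Real.exp (-M) ≤ ‖f (r * Complex.I)‖ →
    ∀ z : ℂ, ‖z‖ = ρ → θ * |z.re| ≤ z.im → ‖h z‖ ≤ Real.exp (C * (r / ρ) ^ 19 * M) := by
  obtain ⟨N, hN⟩ := exists_nat_ge (48 / θ)
  have hN0 : (0 : ℝ) < N := lt_of_lt_of_le (by positivity) hN
  refine ⟨16 * (121 ^ N * ((64 / θ) ^ 2 * 2)), by positivity, ?_⟩
  intro B _ _ f h r ρ M hρ hρr hM hf hh hfM hfh hbase z hz hzθ
  have hr : 0 < r := lt_of_lt_of_le hρ hρr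
  set u : ℂ → ℝ := fun z => M - Real.log ‖f z‖ with hu
  -- one step
  have hstep : ∀ (b p q : ℂ) (R' R s t : ℝ), 0 < t → 0 < s → s < R → ball q R' ⊆ Sect θ ρ r →
      ball b R ⊆ ball q R' → f b ≠ 0 → ball p t ⊆ ball b s →
      ∃ b' ∈ ball p t, f b' ≠ 0 ∧ u b' ≤ (s / t) ^ 2 * u b := by
    intro b p q R' R s t ht hs hsR hq hbq h0 hsub
    exact step hM ht hs hsR (hf.mono (hbq.trans hq)) (fun z hz => hfM z (hq (hbq hz))) h0 hsub
  have hbr : (r : ℂ) * Complex.I ∈ Sect θ ρ r :=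
    ball_center θ ρ r r hθ hθ1 hρ hρr le_rfl (mem_ball_self (by positivity))
  have hf0 : f ((r : ℂ) * Complex.I) ≠ 0 := by
    intro h0
    rw [h0, norm_zero] at hbase
    exact absurd hbase (not_le.2 (Real.exp_pos _))
  have hu0 : ∀ z ∈ Sect θ ρ r, f z ≠ 0 → 0 ≤ u z := fun z hz h0 => u_nonneg (hfM z hz) h0
  -- the central chain
  have hchain : ∀ n : ℕ, ρ ≤ (3 / 4 : ℝ) ^ n * r →
      ∃ b ∈ ball ((((3 / 4 : ℝ) ^ n * r : ℝ) : ℂ) * Complex.I) ((3 / 4 : ℝ) ^ n * r / 32),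
        f b ≠ 0 ∧ u b ≤ (1600 / 9) ^ n * (2 * M) := by
    intro n
    induction n with
    | zero =>
      intro _
      refine ⟨(r : ℂ) * Complex.I, ?_, hf0, ?_⟩
      · rw [pow_zero, one_mul]
        exact mem_ball_self (by positivity)
      · simp only [pow_zero, one_mul, hu]
        have h1 : -M ≤ Real.log ‖f ((r : ℂ) * Complex.I)‖ := by
          rw [Real.le_log_iff_exp_le (norm_pos_iff.2 hf0)]
          exact hbase
        linarith
    | succ n ih =>
      intro hn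
      set s : ℝ := (3 / 4 : ℝ) ^ n * r with hs
      have hs1 : (3 / 4 : ℝ) ^ (n + 1) * r = 3 / 4 * s := by rw [hs]; ring
      rw [hs1] at hn ⊢
      have hs0 : 0 < s := by rw [hs]; positivity
      have hsr : s ≤ r := by
        rw [hs]
        have : (3 / 4 : ℝ) ^ n ≤ 1 := pow_le_one₀ (by norm_num) (by norm_num)
        nlinarith
      obtain ⟨b, hb1, hb2, hb3⟩ := ih (by linarith)
      rw [mem_ball, dist_eq_norm] at hb1
      have hcen := ball_center θ ρ r s hθ hθ1 hρ (by linarith) hsr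
      have hbsub : ball b (15 / 32 * s) ⊆ ball ((s : ℂ) * Complex.I) (s / 2) := by
        refine ball_subset_ball' ?_
        rw [dist_eq_norm]
        linarith
      have hpdist : ‖(((3 / 4 * s : ℝ) : ℂ) * Complex.I) - (s : ℂ) * Complex.I‖ = s / 4 := by
        have e : ((3 / 4 * s : ℝ) : ℂ) * Complex.I - (s : ℂ) * Complex.I
            = ((-(s / 4) : ℝ) : ℂ) * Complex.I := by
          push_cast; ring
        rw [e, norm_mul, Complex.norm_I, mul_one, Complex.norm_real, norm_neg,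
          Real.norm_of_nonneg (by positivity)]
      have hsub : ball (((3 / 4 * s : ℝ) : ℂ) * Complex.I) (3 / 4 * s / 32) ⊆ ball b (5 / 16 * s) := by
        refine ball_subset_ball' ?_
        rw [dist_eq_norm]
        have e : (((3 / 4 * s : ℝ) : ℂ) * Complex.I) - b =
            ((((3 / 4 * s : ℝ) : ℂ) * Complex.I) - (s : ℂ) * Complex.I) -
              (b - (s : ℂ) * Complex.I) := by ring
        rw [e]
        have := norm_sub_le ((((3 / 4 * s : ℝ) : ℂ) * Complex.I) - (s : ℂ) * Complex.I)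
          (b - (s : ℂ) * Complex.I)
        rw [hpdist] at this
        linarith
      obtain ⟨b', hb'1, hb'2, hb'3⟩ := hstep b _ _ _ (15 / 32 * s) (5 / 16 * s) (3 / 4 * s / 32)
        (by positivity) (by positivity) (by linarith) hcen hbsub hb2 hsub
      refine ⟨b', hb'1, hb'2, hb'3.trans ?_⟩
      have e2 : (5 / 16 * s / (3 / 4 * s / 32)) ^ 2 = 1600 / 9 := by
        field_simp
        norm_num
      rw [e2]
      calc (1600 / 9 : ℝ) * u b ≤ 1600 / 9 * ((1600 / 9) ^ n * (2 * M)) := by gcongr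
        _ = (1600 / 9) ^ (n + 1) * (2 * M) := by ring
  obtain ⟨n, hn1, hn2⟩ := exists_nat_pow_near (x := r / ρ) (y := (4 / 3 : ℝ))
    ((one_le_div hρ).2 hρr) (by norm_num)
  set s : ℝ := (3 / 4 : ℝ) ^ n * r with hs
  have hpow : (3 / 4 : ℝ) ^ n * (4 / 3 : ℝ) ^ n = 1 := by
    rw [← mul_pow]; norm_num
  have hρs : ρ ≤ s := by
    rw [le_div_iff₀ hρ] at hn1
    have h34 : (0 : ℝ) < (3 / 4 : ℝ) ^ n := by positivity
    calc ρ = (3 / 4 : ℝ) ^ n * ((4 / 3 : ℝ) ^ n * ρ) := by rw [← mul_assoc, hpow, one_mul]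
      _ ≤ (3 / 4 : ℝ) ^ n * r := mul_le_mul_of_nonneg_left hn1 h34.le
  have hsρ : s ≤ 4 / 3 * ρ := by
    rw [div_lt_iff₀ hρ, pow_succ] at hn2
    have h34 : (0 : ℝ) < (3 / 4 : ℝ) ^ n := by positivity
    calc s ≤ (3 / 4 : ℝ) ^ n * ((4 / 3 : ℝ) ^ n * (4 / 3) * ρ) :=
          mul_le_mul_of_nonneg_left hn2.le h34.le
      _ = ((3 / 4 : ℝ) ^ n * (4 / 3 : ℝ) ^ n) * (4 / 3 * ρ) := by ring
      _ = 4 / 3 * ρ := by rw [hpow, one_mul]
  have hs0 : 0 < s := by linarith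
  have hsr : s ≤ r := by
    rw [hs]
    have : (3 / 4 : ℝ) ^ n ≤ 1 := pow_le_one₀ (by norm_num) (by norm_num)
    nlinarith
  obtain ⟨b₀, hb₀1, hb₀2, hb₀3⟩ := hchain n hρs
  rw [← hs, mem_ball, dist_eq_norm] at hb₀1
  have hub₀ : u b₀ ≤ (r / ρ) ^ 19 * (2 * M) := by
    refine hb₀3.trans ?_
    apply mul_le_mul_of_nonneg_right _ (by positivity)
    calc (1600 / 9 : ℝ) ^ n ≤ ((4 / 3 : ℝ) ^ 19) ^ n := by
          apply pow_le_pow_left₀ (by norm_num)
          norm_num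
      _ = ((4 / 3 : ℝ) ^ n) ^ 19 := by rw [← pow_mul, ← pow_mul, mul_comm]
      _ ≤ (r / ρ) ^ 19 := pow_le_pow_left₀ (by positivity) hn1 19
  -- the transition
  set t : ℝ := θ * ρ / 128 with ht
  have hθρ : 0 < θ * ρ := mul_pos hθ hρ
  have ht0 : 0 < t := by positivity
  have hθρ1 : θ * ρ ≤ ρ := by nlinarith
  have htρ : t ≤ ρ / 128 := by rw [ht]; linarith
  have hcen := ball_center θ ρ r s hθ hθ1 hρ hρs hsr
  obtain ⟨b₁, hb₁1, hb₁2, hb₁3⟩ := hstep b₀ ((s : ℂ) * Complex.I) ((s : ℂ) * Complex.I) (s / 2)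
    (15 / 32 * s) (s / 4) t ht0 (by positivity) (by linarith) hcen
    (by
      refine ball_subset_ball' ?_
      rw [dist_eq_norm]
      linarith) hb₀2
    (by
      refine ball_subset_ball' ?_
      rw [dist_comm, dist_eq_norm]
      linarith)
  have hub₁ : u b₁ ≤ (64 / θ) ^ 2 * ((r / ρ) ^ 19 * (2 * M)) := by
    refine hb₁3.trans ?_
    have e1 : s / 4 / t ≤ 64 / θ := by
      rw [div_le_div_iff₀ ht0 hθ, ht]
      nlinarith
    have e2 : 0 ≤ u b₀ := by
      refine hu0 b₀ (hcen ?_) hb₀2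
      rw [mem_ball, dist_eq_norm]
      linarith
    gcongr
  -- the side chain
  have hzim0 : 0 ≤ z.im := le_trans (by positivity) hzθ
  have hzim : θ * ρ / 2 ≤ z.im := by
    have h1 : ρ ^ 2 = z.re ^ 2 + z.im ^ 2 := by
      rw [← hz, Complex.sq_norm, Complex.normSq_apply]; ring
    have h2 : (θ * |z.re|) ^ 2 ≤ z.im ^ 2 := pow_le_pow_left₀ (by positivity) hzθ 2
    rw [mul_pow, sq_abs] at h2
    have h3 : θ ^ 2 ≤ 1 := pow_le_one₀ hθ.le hθ1
    apply le_of_sq_le_sq _ hzim0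
    nlinarith [sq_nonneg z.im, mul_nonneg (sub_nonneg.2 h3) (sq_nonneg z.im)]
  have hzim1 : z.im ≤ ρ := by rw [← hz]; exact (le_abs_self _).trans (Complex.abs_im_le_norm z)
  set v : ℂ := z - (s : ℂ) * Complex.I with hv
  have hnormsI : ‖(s : ℂ) * Complex.I‖ = s := by
    rw [norm_mul, Complex.norm_I, mul_one, Complex.norm_real, Real.norm_of_nonneg hs0.le]
  have hvn : ‖v‖ ≤ 3 * ρ := by
    have := norm_sub_le z ((s : ℂ) * Complex.I)
    rw [hz, hnormsI] at this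
    linarith
  -- the balls of the side chain
  have hball : ∀ k : ℕ, k ≤ N →
      ball ((s : ℂ) * Complex.I + ((k : ℝ) / N : ℝ) * v) (θ * ρ / 8) ⊆ Sect θ ρ r := by
    intro k hk'
    exact side_ball hθ hθ1 hρ hρr hρs hsρ hz hzθ hzim (by positivity)
      (by rw [div_le_one hN0]; exact_mod_cast hk')
  have h16 : θ * ρ / 8 = 16 * t := by
    rw [ht]; ring
  have h48 : 48 ≤ N * θ := by
    rw [div_le_iff₀ hθ] at hN
    exact hN
  have hside : ∀ k : ℕ, k ≤ N →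
      ∃ b ∈ ball ((s : ℂ) * Complex.I + ((k : ℝ) / N : ℝ) * v) t, f b ≠ 0 ∧
        u b ≤ 121 ^ k * ((64 / θ) ^ 2 * ((r / ρ) ^ 19 * (2 * M))) := by
    intro k
    induction k with
    | zero =>
      intro _
      refine ⟨b₁, by simpa using hb₁1, hb₁2, by simpa using hub₁⟩
    | succ k ih =>
      intro hk
      have hk' : k ≤ N := by omega
      obtain ⟨b, hb1, hb2, hb3⟩ := ih hk'
      rw [mem_ball, dist_eq_norm] at hb1
      set ζ : ℂ := (s : ℂ) * Complex.I + ((k : ℝ) / N : ℝ) * v with hζ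
      have hζd : ‖((s : ℂ) * Complex.I + (((k + 1 : ℕ) : ℝ) / N : ℝ) * v) - ζ‖ ≤ θ * ρ / 16 := by
        have e : (s : ℂ) * Complex.I + (((k + 1 : ℕ) : ℝ) / N : ℝ) * v - ζ
            = ((1 / N : ℝ) : ℂ) * v := by
          rw [hζ]; push_cast; ring
        rw [e, norm_mul, Complex.norm_real, Real.norm_of_nonneg (by positivity)]
        rw [one_div, inv_mul_le_iff₀ hN0]
        nlinarith
      obtain ⟨b', hb'1, hb'2, hb'3⟩ := hstep b
        ((s : ℂ) * Complex.I + (((k + 1 : ℕ) : ℝ) / N : ℝ) * v) ζ (θ * ρ / 8) (15 * t) (11 * t) t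
        ht0 (by positivity) (by linarith) (hball k hk')
        (by
          refine ball_subset_ball' ?_
          rw [dist_eq_norm, h16]
          linarith) hb2
        (by
          refine ball_subset_ball' ?_
          rw [dist_eq_norm]
          have e : ((s : ℂ) * Complex.I + (((k + 1 : ℕ) : ℝ) / N : ℝ) * v) - b =
              (((s : ℂ) * Complex.I + (((k + 1 : ℕ) : ℝ) / N : ℝ) * v) - ζ) - (b - ζ) := by ring
          rw [e]
          have := norm_sub_le (((s : ℂ) * Complex.I + (((k + 1 : ℕ) : ℝ) / N : ℝ) * v) - ζ) (b - ζ)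
          have h8 : θ * ρ / 16 = 8 * t := by rw [ht]; ring
          rw [h8] at hζd
          linarith)
      refine ⟨b', hb'1, hb'2, hb'3.trans ?_⟩
      have e2 : (11 * t / t) ^ 2 = 121 := by
        rw [mul_div_cancel_right₀ _ ht0.ne']
        norm_num
      rw [e2]
      calc (121 : ℝ) * u b ≤ 121 * (121 ^ k * ((64 / θ) ^ 2 * ((r / ρ) ^ 19 * (2 * M)))) := by
            gcongr
        _ = _ := by ring
  obtain ⟨b, hb1, hb2, hb3⟩ := hside N le_rfl
  have e1 : (s : ℂ) * Complex.I + ((N : ℝ) / N : ℝ) * v = z := by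
    rw [div_self hN0.ne', hv]; simp
  have hzb := hball N le_rfl
  rw [e1] at hb1 hzb
  rw [mem_ball, dist_eq_norm] at hb1
  have hbS : ball b (15 * t) ⊆ Sect θ ρ r := by
    refine Subset.trans (ball_subset_ball' ?_) hzb
    rw [dist_eq_norm, h16]
    linarith
  have hfin := bound (B := B) (f := f) (h := h) (b := b) (p := z) (R := 15 * t) (s := 4 * t) (t := t)
    (t' := 2 * t) hM ht0 (by linarith) (by linarith) (by linarith) (hf.mono hbS)
    (fun z hz => hfM z (hbS hz)) hb2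
    (by
      refine ball_subset_ball' ?_
      rw [dist_comm, dist_eq_norm]
      linarith) (hh.mono hbS) (fun z hz => hfh z (hbS hz))
  refine hfin.trans (Real.exp_le_exp.2 ?_)
  have e2 : (4 * t / t) ^ 2 = 16 := by
    rw [mul_div_cancel_right₀ _ ht0.ne']
    norm_num
  rw [e2]
  calc 16 * (M - Real.log ‖f b‖) ≤ 16 * (121 ^ N * ((64 / θ) ^ 2 * ((r / ρ) ^ 19 * (2 * M)))) := by
        have : M - Real.log ‖f b‖ = u b := rfl
        rw [this]
        gcongr
    _ = 16 * (121 ^ N * ((64 / θ) ^ 2 * 2)) * (r / ρ) ^ 19 * M := by ring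

end Pool.Agent.J4.H86.DZ
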