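import Pool.Agent.J4.H86.DZ.E2z
import Pool.Agent.J4.H86.DZ.Sector
import Pool.Agent.W125.HI.E3
import Pool.Agent.W85.HI.E1

/-!
Growth outside cones of analytic functions which are bounded by the resolvents of perturbed operators; the perturbed
operators may have eigenvalues.
-/

set_option autoImplicit false

open Filter Topology MeasureTheory Metric

namespace Pool.Agent.J4.H86.DZ

open Pool.Agent.W402.HI W125.HI

/-- `h` is bounded by the resolvents of perturbations of `S`; near every point there is one -/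
def Fam {X B : Type} [NormedAddCommGroup X] [NormedSpace ℂ X] [NormedAddCommGroup B]
    (S : X →L[ℂ] X) (E : Set ℂ) (p : ℕ) (h : ℂ → B) : Prop :=
  ∀ z₀, z₀ ∉ E → ∃ (K : X →L[ℂ] X) (C : ℝ), Pert S K E C p ∧ z₀ ∈ resolventSet ℂ (S + K) ∧
    ∀ z, z ∉ E → z ∈ resolventSet ℂ (S + K) → ‖h z‖ ≤ ‖resolvent (S + K) z‖

set_option maxHeartbeats 4000000 in
theorem coreZ {X B₀ : Type} [NormedAddCommGroup X] [NormedSpace ℂ X]
    [CompleteSpace X] [NormedAddCommGroup B₀] [NormedSpace ℂ B₀] (S : X →L[ℂ] X) (E : Set ℂ) (p : ℕ)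
    (h : ℂ → B₀) (hh : DifferentiableOn ℂ h Eᶜ) (hF : Fam S E p h)
    (w : ℂ) (hw : w ∈ E) (d : ℂ) (hd : ‖d‖ = 1)
    (hT : TangentAt E w d) (θ : ℝ) (hθ : 0 < θ) (hθ1 : θ ≤ 1) :
    ∃ C' r : ℝ, 0 < r ∧ ∀ z : ℂ, z ≠ w → ‖z - w‖ < r →
      θ * |((z - w) / d).re| ≤ ((z - w) / d).im →
      ‖h z‖ ≤ Real.exp (C' / ‖z - w‖ ^ (2 * p + 19)) := by
  have hd0 : d ≠ 0 := by
    intro h
    rw [h, norm_zero] at hd
    exact zero_ne_one hd
  obtain ⟨r1, hr1, ht⟩ := hT (θ / 8) (by positivity)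
  set r0 := min r1 1 with hr0
  have hr0pos : 0 < r0 := lt_min hr1 one_pos
  have hr0le : r0 ≤ 1 := min_le_right _ _
  have ht' : ∀ z ∈ E, ‖z - w‖ < r0 → |((z - w) / d).im| ≤ θ / 8 * |((z - w) / d).re| :=
    fun z hz h => ht z hz (h.trans_le (min_le_left _ _))
  obtain ⟨Cθ, hCθ, hD2⟩ := sector hθ hθ1
  set r := r0 / 8 with hr
  have hrpos : 0 < r := by positivity
  have hrle : r ≤ 1 := by linarith
  have hnrI : ‖(r : ℂ) * Complex.I‖ = r := by
    rw [norm_mul, Complex.norm_I, mul_one, Complex.norm_real, Real.norm_of_nonneg hrpos.le]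
  have hz₀E : w + d * (r * Complex.I) ∉ E := by
    intro hmem
    have h1 := geo E w d hw hd θ r0 hθ hθ1 ht' ((r : ℂ) * Complex.I) (by rw [hnrI]; linarith)
      (by simp [hrpos.le])
    rw [infDist_zero_of_mem hmem, hnrI] at h1
    have : 0 < θ / 20 * r := by positivity
    linarith
  obtain ⟨K, C, hP, hbase, hhR⟩ := hF _ hz₀E
  have hC0 : 0 ≤ C := by
    obtain ⟨G, -, h2, -⟩ := hP 1 one_pos le_rfl
    rw [one_pow, div_one] at h2
    exact le_trans (Nat.cast_nonneg _) h2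
  -- constants
  set a1 := C * (160 / θ ^ 2) ^ p with ha1
  have ha1' : 0 ≤ a1 := by positivity
  set β := 1 + ‖K‖ + C + 2 with hβ
  have hβ1 : 1 ≤ β := by
    have := norm_nonneg K
    linarith
  set L0 := ‖resolvent (S + K) (w + d * (r * Complex.I))‖ with hL0
  have hL0' : 0 ≤ L0 := norm_nonneg _
  set c₂ : ℝ := 1 + 3 * (β + a1) + a1 + 4 * a1 * (β + a1) with hc₂
  have hc₂0 : 0 ≤ c₂ := by positivity
  set M₀ : ℝ := a1 * (4 * β + 4 * a1 + L0) with hM₀
  have hM₀0 : 0 ≤ M₀ := by positivity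
  refine ⟨Cθ * (c₂ + M₀), r, hrpos, ?_⟩
  intro z hzw hzr hcone
  set s := (z - w) / d with hs
  set ρ := ‖z - w‖ with hρ
  have hρpos : 0 < ρ := norm_pos_iff.mpr (sub_ne_zero.mpr hzw)
  have hsρ : ‖s‖ = ρ := by rw [hs, norm_div, hd, div_one]
  have hzs : w + d * s = z := by
    rw [hs, mul_div_cancel₀ _ hd0]
    ring
  have hρle : ρ ≤ 1 := by linarith
  set δ := θ ^ 2 * ρ / 160 with hδ
  have hδpos : 0 < δ := by positivity
  have hδ1 : δ ≤ 1 := by
    have h1 : θ ^ 2 ≤ 1 := pow_le_one₀ hθ.le hθ1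
    have h2 : θ ^ 2 * ρ ≤ 1 * 1 := by gcongr
    rw [hδ]
    linarith
  obtain ⟨G, hGf, hGr, hGn, hGz⟩ := hP δ hδpos hδ1
  set Q := 1 / ρ ^ p with hQ
  have hQ1 : 1 ≤ Q := by
    rw [hQ, le_div_iff₀ (by positivity), one_mul]
    exact pow_le_one₀ hρpos.le hρle
  have haQ : C / δ ^ p = a1 * Q := by
    rw [ha1, hQ, hδ, div_pow, mul_pow, div_pow]
    field_simp
  rw [haQ] at hGr hGz
  set m := Module.finrank ℂ (LinearMap.range (G : X →ₗ[ℂ] X)) with hm
  set B := 1 + ‖K‖ + C + 2 * Real.exp (a1 * Q) with hB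
  have hexp0 : 1 ≤ Real.exp (a1 * Q) := Real.one_le_exp (by positivity)
  have hKn := norm_nonneg K
  have hB1 : 1 ≤ B := by linarith
  have hBexp : B ≤ Real.exp (β + a1 * Q) := by
    have h1 : β ≤ Real.exp β := by linarith [Real.add_one_le_exp β]
    calc B ≤ β * Real.exp (a1 * Q) := by
          rw [hB, hβ]
          nlinarith
      _ ≤ Real.exp β * Real.exp (a1 * Q) := by gcongr
      _ = Real.exp (β + a1 * Q) := by rw [← Real.exp_add]
  have hGB : ‖G‖ ≤ B := by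
    have h1 : ‖G‖ ≤ ‖K‖ + ‖K - G‖ := by
      have := norm_sub_le K (K - G)
      rwa [sub_sub_cancel] at this
    linarith
  set U : Set ℂ := {z | (z - w) / d ∈ Sect θ ρ r} with hU
  have hUo : IsOpen U := (sect_open θ ρ r).preimage (by fun_prop)
  have hdist : ∀ ζ ∈ Sect θ ρ r, δ ≤ infDist (w + d * ζ) E := by
    intro ζ hζ
    obtain ⟨h1, h2, h3⟩ := hζ
    refine le_trans ?_ (geo E w d hw hd θ r0 hθ hθ1 ht' ζ (by linarith) h1.le)
    rw [hδ]
    calc θ ^ 2 * ρ / 160 = θ / 20 * (θ * ρ / 8) := by ring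
      _ ≤ θ / 20 * ‖ζ‖ := by gcongr
  have hUd : ∀ z ∈ U, δ ≤ infDist z E := by
    intro z hz
    have := hdist _ hz
    rw [mul_div_cancel₀ _ hd0] at this
    simpa using this
  have hUE : ∀ z ∈ U, z ∉ E := by
    intro z hz h1
    have h2 := hUd z hz
    rw [infDist_zero_of_mem h1] at h2
    linarith
  have hSK : S + (K - G) + G = S + K := by abel
  obtain ⟨f, hf1, hf2, hf3, hf4⟩ := e2z W85.HI.E1.main X (S + (K - G)) G m B U hB1 hUo hGf le_rfl
    hGB (by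
    intro z hz
    obtain ⟨g1, g2, g3⟩ := hGz z (hUd z hz)
    obtain ⟨g4, g5⟩ := neumann S (K - G) z g1 g2
    refine ⟨g4, g5.trans ?_⟩
    rw [hB]
    linarith)
  rw [hSK] at hf3 hf4
  obtain ⟨e1, e2, -, -, -⟩ := est1 a1 β L0 Q B m ha1' hβ1 hL0' hQ1 hGr hB1 hBexp
  have e3 := est2 a1 β L0 Q B 0 1 0 1 m ha1' hβ1 hL0' hQ1 le_rfl le_rfl le_rfl zero_le_one hGr hB1
    hBexp (by simp)
  rw [zero_mul, add_zero, mul_one, div_one] at e3
  set M : ℝ := (c₂ + M₀) * Q ^ 2 with hM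
  have hM0 : 0 ≤ M := by positivity
  have hMM : M₀ * Q ^ 2 ≤ M := by
    rw [hM]
    gcongr
    linarith
  have hmem : ∀ ζ ∈ Sect θ ρ r, w + d * ζ ∈ U := by
    intro ζ hζ
    change (w + d * ζ - w) / d ∈ Sect θ ρ r
    rw [add_sub_cancel_left, mul_div_cancel_left₀ _ hd0]
    exact hζ
  have hrI : (r : ℂ) * Complex.I ∈ Sect θ ρ r := by
    refine ⟨?_, ?_, ?_⟩
    · simp [hrpos]
    · rw [hnrI]
      have : θ * ρ ≤ 1 * ρ := by gcongr
      linarith
    · rw [hnrI]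
      linarith
  have hfle : ∀ z ∈ U, ‖f z‖ ≤ Real.exp (M₀ * Q ^ 2) := fun z hz => (hf2 z hz).trans e1
  have hfh : ∀ z ∈ U, ‖f z‖ * ‖h z‖ ≤ Real.exp M := by
    intro z hz
    rcases eq_or_ne (f z) 0 with h0 | h0
    · rw [h0, norm_zero, zero_mul]
      exact (Real.exp_pos _).le
    · have hzr := hf4 z hz h0
      have h1 := (hf3 z hz hzr).2.2
      have h2 := hhR z (hUE z hz) hzr
      have hfp : 0 < ‖f z‖ := norm_pos_iff.2 h0
      have hBB : 0 ≤ B ^ 3 * (2 ^ m * (2 + B ^ 2) ^ m) := by positivity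
      have hone : 1 ≤ Real.exp (M₀ * Q ^ 2) := Real.one_le_exp (by positivity)
      calc ‖f z‖ * ‖h z‖ ≤ ‖f z‖ * (B + B ^ 3 * (2 ^ m * (2 + B ^ 2) ^ m) / ‖f z‖) := by
            gcongr
            exact h2.trans h1
        _ = ‖f z‖ * B + B ^ 3 * (2 ^ m * (2 + B ^ 2) ^ m) := by
            field_simp
        _ ≤ Real.exp (M₀ * Q ^ 2) * B + Real.exp (M₀ * Q ^ 2) *
              (B ^ 3 * (2 ^ m * (2 + B ^ 2) ^ m)) := by
            exact add_le_add (mul_le_mul_of_nonneg_right (hfle z hz) (zero_le_one.trans hB1))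
              (le_mul_of_one_le_left hBB hone)
        _ = Real.exp (M₀ * Q ^ 2) * (B + B ^ 3 * (2 ^ m * (2 + B ^ 2) ^ m)) := by ring
        _ ≤ Real.exp (M₀ * Q ^ 2) * Real.exp (c₂ * Q ^ 2) := by
            gcongr
        _ = Real.exp M := by
            rw [← Real.exp_add, hM]
            congr 1
            ring
  have hkey := hD2 B₀ (fun ζ => f (w + d * ζ)) (fun ζ => h (w + d * ζ)) r ρ M hρpos hzr.le hM0
    (by
      refine hf1.comp (by fun_prop) ?_
      intro ζ hζ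
      exact hmem ζ hζ)
    (by
      refine hh.comp (by fun_prop) ?_
      intro ζ hζ
      exact hUE _ (hmem ζ hζ))
    (by
      intro ζ hζ
      exact (hfle _ (hmem ζ hζ)).trans (Real.exp_le_exp.2 hMM))
    (by
      intro ζ hζ
      exact hfh _ (hmem ζ hζ))
    (by
      obtain ⟨g1, g2, -⟩ := hf3 _ (hmem _ hrI) hbase
      have g3 : 0 < ‖f (w + d * (r * Complex.I))‖ := norm_pos_iff.mpr g1
      have g4 := (g2.trans e2).trans (Real.exp_le_exp.2 hMM)
      rw [Real.exp_neg]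
      exact inv_le_of_inv_le₀ g3 g4)
    s hsρ hcone
  simp only [hzs] at hkey
  refine hkey.trans (Real.exp_le_exp.2 ?_)
  have hW : (r / ρ) ^ 19 ≤ 1 / ρ ^ 19 := by
    rw [div_pow]
    gcongr
    exact pow_le_one₀ hrpos.le hrle
  calc Cθ * (r / ρ) ^ 19 * M ≤ Cθ * (1 / ρ ^ 19) * M := by gcongr
    _ = Cθ * (c₂ + M₀) / ρ ^ (2 * p + 19) := by
        rw [hM, hQ, pow_add, pow_mul, div_pow, one_pow, ← pow_mul, ← pow_mul, mul_comm p 2]
        field_simp

/-- **growth outside cones** -/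
theorem growthZ {X B₀ : Type} [NormedAddCommGroup X] [NormedSpace ℂ X]
    [CompleteSpace X] [NormedAddCommGroup B₀] [NormedSpace ℂ B₀] (S : X →L[ℂ] X) (E : Set ℂ) (p : ℕ)
    (h : ℂ → B₀) (hh : DifferentiableOn ℂ h Eᶜ) (hF : Fam S E p h) :
    ∀ w ∈ E, ∀ d : ℂ, ‖d‖ = 1 → TangentAt E w d →
      ConeGrowth (fun z => ‖h z‖) w d (2 * p + 19) := by
  intro w hw d hd hT θ hθ
  set θ' := min θ 1 with hθ'
  have h0 : 0 < θ' := lt_min hθ one_pos
  have h1 : θ' ≤ 1 := min_le_right _ _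
  have hT' : TangentAt E w (-d) := by
    intro η hη
    obtain ⟨r, hr, h⟩ := hT η hη
    refine ⟨r, hr, ?_⟩
    intro z hz hzr
    have := h z hz hzr
    rw [div_neg, Complex.neg_im, Complex.neg_re, abs_neg, abs_neg]
    exact this
  obtain ⟨C1, r1, hr1, H1⟩ := coreZ S E p h hh hF w hw d hd hT θ' h0 h1
  obtain ⟨C2, r2, hr2, H2⟩ := coreZ S E p h hh hF w hw (-d) (by rwa [norm_neg]) hT' θ' h0 h1
  refine ⟨max C1 C2, min r1 r2, lt_min hr1 hr2, ?_⟩
  intro z hzw hzr hcone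
  have hpos : 0 < ‖z - w‖ := norm_pos_iff.mpr (sub_ne_zero.mpr hzw)
  have hcone' : θ' * |((z - w) / d).re| ≤ |((z - w) / d).im| := by
    refine le_trans ?_ hcone
    exact mul_le_mul_of_nonneg_right (min_le_left _ _) (abs_nonneg _)
  rcases le_total 0 ((z - w) / d).im with h | h
  · rw [abs_of_nonneg h] at hcone'
    refine (H1 z hzw (hzr.trans_le (min_le_left _ _)) hcone').trans ?_
    apply Real.exp_le_exp.mpr
    gcongr
    exact le_max_left _ _
  · rw [abs_of_nonpos h] at hcone'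
    refine (H2 z hzw (hzr.trans_le (min_le_right _ _)) ?_).trans ?_
    · rw [div_neg, Complex.neg_im, Complex.neg_re, abs_neg]
      exact hcone'
    · apply Real.exp_le_exp.mpr
      gcongr
      exact le_max_right _ _

end Pool.Agent.J4.H86.DZ
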