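import Pool.Agent.W706.HIR.Main
import Pool.Agent.W991.HI.E5

/-!
An operator which is a finite rank perturbation of an invertible operator, which commutes with a projection `P` and
is invertible on the range of `P`, becomes invertible after a finite rank perturbation on the kernel of `P`.
-/

set_option autoImplicit false

open Filter Topology Metric

namespace Pool.Agent.J4.H86.DZ

section ring

variable {R : Type*} [Ring R]

/-- Schur complements -/
theorem schur (P N E : R) (hPP : P * P = P) (hPE : P * E = E) (hEP : E * P = E)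
    (hDE : P * N * P * E = P) (hED : E * (P * N * P) = P) (hN : IsUnit N) :
    IsUnit (P * N * P + ((1 - P) * N * (1 - P) - (1 - P) * N * E * N * (1 - P))) := by
  set Q := 1 - P with hQ
  have hQP : Q * P = 0 := by rw [hQ, sub_mul, one_mul, hPP, sub_self]
  have hPQ : P * Q = 0 := by rw [hQ, mul_sub, mul_one, hPP, sub_self]
  have hQE : Q * E = 0 := by rw [← hPE, ← mul_assoc, hQP, zero_mul]
  have hEQ : E * Q = 0 := by rw [← hEP, mul_assoc, hPQ, mul_zero]
  have hsum : P + Q = 1 := by rw [hQ]; abel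
  set D := P * N * P with hD
  set S := Q * N * Q - Q * N * E * N * Q with hS
  have hES : E * S = 0 := by
    rw [hS, mul_sub]
    simp only [← mul_assoc, hEQ, zero_mul, sub_self]
  have hSE : S * E = 0 := by
    rw [hS, sub_mul]
    simp only [mul_assoc, hQE, mul_zero, sub_self]
  set a := Q * N * E with ha
  set b := E * N * Q with hb
  have haa : a * a = 0 := by
    rw [ha]
    calc Q * N * E * (Q * N * E) = Q * N * (E * Q) * (N * E) := by simp only [mul_assoc]
      _ = 0 := by rw [hEQ, mul_zero, zero_mul]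
  have hbb : b * b = 0 := by
    rw [hb]
    calc E * N * Q * (E * N * Q) = E * N * (Q * E) * (N * Q) := by simp only [mul_assoc]
      _ = 0 := by rw [hQE, mul_zero, zero_mul]
  have hLU : (1 + a) * (D + S) * (1 + b) = N := by
    have h1 : a * D = Q * N * P := by
      rw [ha, mul_assoc, hED]
    have h2 : a * S = 0 := by
      rw [ha, mul_assoc, hES, mul_zero]
    have h3 : D * b = P * N * Q := by
      calc D * b = D * E * N * Q := by rw [hb]; simp only [mul_assoc]
        _ = P * N * Q := by rw [hDE]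
    have h4 : S * b = 0 := by
      calc S * b = S * E * N * Q := by rw [hb]; simp only [mul_assoc]
        _ = 0 := by rw [hSE, zero_mul, zero_mul]
    have h5 : Q * N * P * b = Q * N * E * N * Q := by
      calc Q * N * P * b = Q * N * (P * E) * N * Q := by rw [hb]; simp only [mul_assoc]
        _ = _ := by rw [hPE]
    calc (1 + a) * (D + S) * (1 + b) = (D + S + (a * D + a * S)) * (1 + b) := by
          rw [add_mul 1 a, one_mul, mul_add a]
      _ = D + S + Q * N * P + (D * b + S * b + Q * N * P * b) := by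
          rw [h1, h2, add_zero, mul_add, mul_one, add_mul, add_mul]
      _ = D + S + Q * N * P + (P * N * Q + Q * N * E * N * Q) := by
          rw [h3, h4, h5, add_zero]
      _ = (P + Q) * N * (P + Q) := by
          rw [hS, hD, ha]
          noncomm_ring
      _ = N := by rw [hsum, one_mul, mul_one]
  have hL : (1 + a) * (1 - a) = 1 := by
    rw [mul_sub, mul_one, add_mul, one_mul, haa]; abel
  have hL' : (1 - a) * (1 + a) = 1 := by
    rw [mul_add, mul_one, sub_mul, one_mul, haa]; abel
  have hU : (1 + b) * (1 - b) = 1 := by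
    rw [mul_sub, mul_one, add_mul, one_mul, hbb]; abel
  have hU' : (1 - b) * (1 + b) = 1 := by
    rw [mul_add, mul_one, sub_mul, one_mul, hbb]; abel
  have hLu : IsUnit (1 - a) := ⟨⟨1 - a, 1 + a, hL', hL⟩, rfl⟩
  have hUu : IsUnit (1 - b) := ⟨⟨1 - b, 1 + b, hU', hU⟩, rfl⟩
  have h6 : D + S = (1 - a) * N * (1 - b) := by
    calc D + S = ((1 - a) * (1 + a)) * (D + S) * ((1 + b) * (1 - b)) := by
          rw [hL', hU, one_mul, mul_one]
      _ = (1 - a) * ((1 + a) * (D + S) * (1 + b)) * (1 - b) := by simp only [mul_assoc]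
      _ = _ := by rw [hLU]
  rw [h6]
  exact (hLu.mul hN).mul hUu

/-- the ring part of the theorem -/
theorem ring_part (P A G B W c : R) (hPP : P * P = P) (hAP : A * P = P * A) (hAB : A * B = P)
    (hBA : B * A = P) (hPB : P * B = B) (hBP : B * P = B) (hcc : ∀ x, c * x = x * c)
    (hW1 : (1 - c * (B * G * P)) * W = 1) (hW2 : W * (1 - c * (B * G * P)) = 1)
    (hN : IsUnit (A - G - (c - 1) * (P * G * P))) :
    ∃ F : R, P * F = 0 ∧ F * P = 0 ∧ IsUnit (A + F) ∧ ∃ Y, F = (1 - P) * G * Y := by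
  set N := A - G - (c - 1) * (P * G * P) with hNd
  set Q := 1 - P with hQ
  have hQP : Q * P = 0 := by rw [hQ, sub_mul, one_mul, hPP, sub_self]
  have hPQ : P * Q = 0 := by rw [hQ, mul_sub, mul_one, hPP, sub_self]
  set Φ := B * G * P with hΦ
  have hPΦ : P * Φ = Φ := by rw [hΦ, ← mul_assoc, ← mul_assoc, hPB]
  have hΦP : Φ * P = Φ := by rw [hΦ, mul_assoc, hPP]
  have hPcΦ : P * (1 - c * Φ) = (1 - c * Φ) * P := by
    rw [mul_sub, sub_mul, mul_one, one_mul, ← mul_assoc, ← hcc, mul_assoc, hPΦ, mul_assoc, hΦP]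
  have hPW : P * W = W * P := by
    calc P * W = W * (1 - c * Φ) * P * W := by rw [hW2, one_mul]
      _ = W * (P * (1 - c * Φ)) * W := by rw [hPcΦ]; simp only [mul_assoc]
      _ = W * P * ((1 - c * Φ) * W) := by simp only [mul_assoc]
      _ = W * P := by rw [hW1, mul_one]
  set E := W * B with hE
  have hPE : P * E = E := by rw [hE, ← mul_assoc, hPW, mul_assoc, hPB]
  have hEP : E * P = E := by rw [hE, mul_assoc, hBP]
  have hQE : Q * E = 0 := by rw [← hPE, ← mul_assoc, hQP, zero_mul]
  have hEQ : E * Q = 0 := by rw [← hEP, mul_assoc, hPQ, mul_zero]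
  -- the corner
  have hD : P * N * P = A * P * (1 - c * Φ) := by
    have h1 : A * P * (c * Φ) = c * (P * G * P) := by
      calc A * P * (c * Φ) = c * (A * (P * Φ)) := by
            rw [← mul_assoc, ← hcc]; simp only [mul_assoc]
        _ = c * (A * B * G * P) := by rw [hPΦ, hΦ]; simp only [mul_assoc]
        _ = c * (P * G * P) := by rw [hAB]
    have h2 : P * (P * G * P) = P * G * P := by simp only [← mul_assoc, hPP]
    have h3 : P * G * P * P = P * G * P := by rw [mul_assoc (P * G), hPP]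
    have h4 : P * ((c - 1) * (P * G * P)) * P = (c - 1) * (P * G * P) := by
      calc P * ((c - 1) * (P * G * P)) * P = (P * c - P) * (P * G * P) * P := by noncomm_ring
        _ = (c * P - P) * (P * G * P) * P := by rw [hcc]
        _ = (c - 1) * (P * (P * G * P) * P) := by noncomm_ring
        _ = _ := by rw [h2, h3]
    have h5 : P * A * P = A * P := by rw [← hAP, mul_assoc, hPP]
    calc P * N * P = P * A * P - P * G * P - P * ((c - 1) * (P * G * P)) * P := by
          rw [hNd]; noncomm_ring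
      _ = A * P - c * (P * G * P) := by rw [h5, h4]; noncomm_ring
      _ = A * P * (1 - c * Φ) := by rw [mul_sub, mul_one, h1]
  have hDE : P * N * P * E = P := by
    calc P * N * P * E = A * P * ((1 - c * Φ) * W) * B := by rw [hD, hE]; simp only [mul_assoc]
      _ = P := by rw [hW1, mul_one, mul_assoc, hPB, hAB]
  have hED : E * (P * N * P) = P := by
    calc E * (P * N * P) = W * (B * A) * P * (1 - c * Φ) := by rw [hD, hE]; simp only [mul_assoc]
      _ = W * (P * (1 - c * Φ)) := by rw [hBA, mul_assoc W, hPP, mul_assoc]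
      _ = W * (1 - c * Φ) * P := by rw [hPcΦ, mul_assoc]
      _ = P := by rw [hW2, one_mul]
  have hu := schur P N E hPP hPE hEP hDE hED hN
  -- the other corner
  have hQPGP : Q * (c - 1) * (P * G * P) = 0 := by
    calc Q * (c - 1) * (P * G * P) = (Q * c - Q) * P * (G * P) := by noncomm_ring
      _ = (c * Q - Q) * P * (G * P) := by rw [hcc]
      _ = (c - 1) * (Q * P) * (G * P) := by noncomm_ring
      _ = 0 := by rw [hQP, mul_zero, zero_mul]
  have hQN : Q * N = Q * A - Q * G := by
    calc Q * N = Q * A - Q * G - Q * (c - 1) * (P * G * P) := by rw [hNd]; noncomm_ring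
      _ = _ := by rw [hQPGP, sub_zero]
  have hPGPQ : (c - 1) * (P * G * P) * Q = 0 := by
    rw [mul_assoc, mul_assoc (P * G), hPQ, mul_zero, mul_zero]
  have hNQ : N * Q = A * Q - G * Q := by
    calc N * Q = A * Q - G * Q - (c - 1) * (P * G * P) * Q := by rw [hNd]; noncomm_ring
      _ = _ := by rw [hPGPQ, sub_zero]
  have hQA : Q * A = A * Q := by rw [hQ, sub_mul, mul_sub, one_mul, mul_one, hAP]
  have hQNE : Q * N * E = -(Q * G * E) := by
    calc Q * N * E = A * (Q * E) - Q * G * E := by rw [hQN, hQA]; noncomm_ring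
      _ = _ := by rw [hQE, mul_zero, zero_sub]
  have hQAQ : Q * A * Q = Q * A := by
    have hQQ : Q * Q = Q := by
      rw [hQ, mul_sub, mul_one, sub_mul, one_mul, hPP, sub_self, sub_zero]
    rw [hQA, mul_assoc, hQQ]
  have hENQ : E * (N * Q) = -(E * G * Q) := by
    calc E * (N * Q) = E * (Q * A) - E * G * Q := by rw [hNQ, hQA]; noncomm_ring
      _ = E * Q * A - E * G * Q := by rw [← mul_assoc E Q A]
      _ = _ := by rw [hEQ, zero_mul, zero_sub]
  set F := -(Q * G * Q) - Q * G * E * G * Q with hF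
  have hS : Q * N * Q - Q * N * E * N * Q = Q * A + F := by
    have h1 : Q * N * Q = Q * A - Q * G * Q := by rw [hQN, sub_mul, hQAQ]
    have h2 : Q * N * E * N * Q = Q * G * E * G * Q := by
      calc Q * N * E * N * Q = Q * N * (E * (N * Q)) := by simp only [mul_assoc]
        _ = -(Q * N * E * G * Q) := by rw [hENQ]; noncomm_ring
        _ = Q * G * E * G * Q := by rw [hQNE]; noncomm_ring
    rw [h1, h2, hF]
    noncomm_ring
  rw [hS] at hu
  have hFQ : F * P = 0 := by
    have : F * P = -(Q * G * (Q * P)) - Q * G * E * G * (Q * P) := by rw [hF]; noncomm_ring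
    rw [this, hQP, mul_zero, mul_zero]; simp
  have hPF : P * F = 0 := by
    have : P * F = -((P * Q) * G * Q) - (P * Q) * G * E * G * Q := by rw [hF]; noncomm_ring
    rw [this, hPQ]; simp
  refine ⟨F, hPF, hFQ, ?_, -Q - E * G * Q, by rw [hF]; noncomm_ring⟩
  -- the last step
  have hEF : E * F = 0 := by rw [← hEP, mul_assoc, hPF, mul_zero]
  have h7 : A + F = (A * E + Q) * (P * N * P + (Q * A + F)) := by
    have e1 : A * E * (P * N * P) = A * P := by rw [mul_assoc, hED]
    have e2 : A * E * (Q * A) = 0 := by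
      calc A * E * (Q * A) = A * (E * Q) * A := by simp only [mul_assoc]
        _ = 0 := by rw [hEQ, mul_zero, zero_mul]
    have e3 : A * E * F = 0 := by rw [mul_assoc, hEF, mul_zero]
    have e4 : Q * (P * N * P) = 0 := by
      calc Q * (P * N * P) = (Q * P) * N * P := by simp only [mul_assoc]
        _ = 0 := by rw [hQP]; simp
    have e5 : Q * (Q * A) = Q * A := by
      have hQQ : Q * Q = Q := by
        rw [hQ, mul_sub, mul_one, sub_mul, one_mul, hPP, sub_self, sub_zero]
      rw [← mul_assoc, hQQ]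
    have e6 : Q * F = F := by
      rw [hQ, sub_mul, one_mul, hPF, sub_zero]
    have e7 : (A * E + Q) * (P * N * P + (Q * A + F)) = A * E * (P * N * P) + A * E * (Q * A) +
        A * E * F + Q * (P * N * P) + Q * (Q * A) + Q * F := by noncomm_ring
    rw [e7, e1, e2, e3, e4, e5, e6, hQA]
    have e8 : A * P + A * Q = A := by rw [← mul_add, hQ]; simp
    calc A + F = A * P + A * Q + F := by rw [e8]
      _ = _ := by abel
  rw [h7]
  refine IsUnit.mul ?_ hu
  have h8 : (A * E + Q) * (P * N * P * B + Q) = 1 := by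
    have e1 : A * E * (P * N * P * B) = P := by
      calc A * E * (P * N * P * B) = A * (E * (P * N * P)) * B := by simp only [mul_assoc]
        _ = P := by rw [hED, mul_assoc, hPB, hAB]
    have e2 : A * E * Q = 0 := by rw [mul_assoc, hEQ, mul_zero]
    have e3 : Q * (P * N * P * B) = 0 := by
      calc Q * (P * N * P * B) = (Q * P) * N * P * B := by simp only [mul_assoc]
        _ = 0 := by rw [hQP]; simp
    have e4 : Q * Q = Q := by
      rw [hQ, mul_sub, mul_one, sub_mul, one_mul, hPP, sub_self, sub_zero]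
    have e5 : (A * E + Q) * (P * N * P * B + Q) = A * E * (P * N * P * B) + A * E * Q +
        Q * (P * N * P * B) + Q * Q := by noncomm_ring
    rw [e5, e1, e2, e3, e4, hQ]
    simp
  have h9 : (P * N * P * B + Q) * (A * E + Q) = 1 := by
    have e1 : P * N * P * B * (A * E) = P := by
      calc P * N * P * B * (A * E) = P * N * P * ((B * A) * E) := by simp only [mul_assoc]
        _ = P := by rw [hBA, hPE, hDE]
    have e2 : P * N * P * B * Q = 0 := by
      have : B * Q = 0 := by rw [← hBP, mul_assoc, hPQ, mul_zero]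
      rw [mul_assoc, this, mul_zero]
    have e3 : Q * (A * E) = 0 := by
      rw [← mul_assoc, hQA, mul_assoc, hQE, mul_zero]
    have e4 : Q * Q = Q := by
      rw [hQ, mul_sub, mul_one, sub_mul, one_mul, hPP, sub_self, sub_zero]
    have e5 : (P * N * P * B + Q) * (A * E + Q) = P * N * P * B * (A * E) + P * N * P * B * Q +
        Q * (A * E) + Q * Q := by noncomm_ring
    rw [e5, e1, e2, e3, e4, hQ]
    simp
  exact ⟨⟨A * E + Q, P * N * P * B + Q, h8, h9⟩, rfl⟩

end ring

section op

variable {X : Type} [NormedAddCommGroup X] [InnerProductSpace ℂ X] [CompleteSpace X]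

/-- finite rank operators have finite spectrum: the version needed -/
theorem finite_bad (Φ : X →L[ℂ] X) (hΦ : FiniteDimensional ℂ (LinearMap.range (Φ : X →ₗ[ℂ] X))) :
    {c : ℂ | ¬ IsUnit (1 - c • Φ)}.Finite := by
  set V := LinearMap.range (Φ : X →ₗ[ℂ] X) with hV
  have hcomp : IsCompactOperator Φ := Pool.Agent.W991.HI.E5.compact_of_finite Φ hΦ
  let T : Module.End ℂ V := (Φ : X →ₗ[ℂ] X).restrict (p := V) (q := V) (fun x _ => ⟨x, rfl⟩)
  have hfin : {μ : ℂ | Module.End.HasEigenvalue T μ}.Finite := by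
    have h1 : {μ : ℂ | Module.End.HasEigenvalue T μ} ⊆ spectrum ℂ T := by
      intro μ hμ
      exact hμ.mem_spectrum
    exact (Module.End.finite_spectrum T).subset h1
  have hsub : {c : ℂ | ¬ IsUnit (1 - c • Φ)} ⊆ (fun μ : ℂ => μ⁻¹) '' {μ : ℂ | Module.End.HasEigenvalue T μ} := by
    intro c hc
    have hc' : ¬ IsUnit (1 - c • Φ) := hc
    have hc0 : c ≠ 0 := by
      rintro rfl
      apply hc'
      rw [zero_smul, sub_zero]
      exact isUnit_one
    refine ⟨c⁻¹, ?_, inv_inv c⟩
    have hsp : c⁻¹ ∈ spectrum ℂ ((0 : X →L[ℂ] X) + Φ) := by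
      rw [zero_add, spectrum.mem_iff]
      intro hu
      apply hc'
      have h1 : (1 : X →L[ℂ] X) - c • Φ = c • (algebraMap ℂ (X →L[ℂ] X) c⁻¹ - Φ) := by
        rw [smul_sub, Algebra.algebraMap_eq_smul_one, smul_smul, mul_inv_cancel₀ hc0, one_smul]
      rw [h1]
      exact (IsUnit.smul (Units.mk0 c hc0) hu)
    have hres : c⁻¹ ∈ resolventSet ℂ (0 : X →L[ℂ] X) := by
      rw [spectrum.mem_resolventSet_iff, sub_zero]
      exact (IsUnit.mk0 _ (inv_ne_zero hc0)).map (algebraMap ℂ (X →L[ℂ] X))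
    obtain ⟨x, hx0, hx⟩ := Pool.Agent.W706.HIR.eigen_of_spectrum hcomp hres hsp
    rw [zero_add] at hx
    have hxV : x ∈ V := by
      have : x = Φ (c • x) := by
        rw [map_smul, hx, smul_smul, mul_inv_cancel₀ hc0, one_smul]
      rw [this]
      exact ⟨c • x, rfl⟩
    change Module.End.HasEigenvalue T c⁻¹
    refine Module.End.hasEigenvalue_of_hasEigenvector (x := ⟨x, hxV⟩) ⟨?_, ?_⟩
    · rw [Module.End.mem_eigenspace_iff]
      ext
      exact hx
    · intro h
      exact hx0 (congrArg Subtype.val h)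
  exact (hfin.image _).subset hsub

theorem idx (A M G P B : X →L[ℂ] X) (hA : A = M + G) (hM : IsUnit M)
    (hG : FiniteDimensional ℂ (LinearMap.range (G : X →ₗ[ℂ] X))) (hPP : P * P = P)
    (hAP : A * P = P * A) (hAB : A * B = P) (hBA : B * A = P) (hPB : P * B = B) (hBP : B * P = B) :
    ∃ F : X →L[ℂ] X, P * F = 0 ∧ F * P = 0 ∧ IsUnit (A + F) ∧
      FiniteDimensional ℂ (LinearMap.range (F : X →ₗ[ℂ] X)) := by
  have hΦ : FiniteDimensional ℂ (LinearMap.range ((B * G * P : X →L[ℂ] X) : X →ₗ[ℂ] X)) := by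
    have h1 : LinearMap.range ((B * G * P : X →L[ℂ] X) : X →ₗ[ℂ] X) ≤
        (LinearMap.range (G : X →ₗ[ℂ] X)).map (B : X →ₗ[ℂ] X) := by
      rintro _ ⟨x, rfl⟩
      exact ⟨G (P x), ⟨P x, rfl⟩, rfl⟩
    exact Submodule.finiteDimensional_of_le h1
  have hbad := finite_bad (B * G * P) hΦ
  have hcont : Continuous fun s : ℂ => M - s • (P * G * P) := by fun_prop
  have hev1 : ∀ᶠ s : ℂ in 𝓝 0, IsUnit (M - s • (P * G * P)) := by
    have h1 : {x : X →L[ℂ] X | IsUnit x} ∈ 𝓝 (M - (0 : ℂ) • (P * G * P)) := by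
      rw [zero_smul, sub_zero]
      exact Units.isOpen.mem_nhds hM
    exact hcont.continuousAt h1
  have hev2 : ∀ᶠ s : ℂ in 𝓝[≠] 0, IsUnit (1 - (1 + s) • (B * G * P)) := by
    have h1 : {s : ℂ | ¬ IsUnit (1 - (1 + s) • (B * G * P))}.Finite := by
      have h2 : {s : ℂ | ¬ IsUnit (1 - (1 + s) • (B * G * P))} =
          (fun s : ℂ => 1 + s) ⁻¹' {c : ℂ | ¬ IsUnit (1 - c • (B * G * P))} := rfl
      rw [h2]
      exact hbad.preimage (add_right_injective (1:ℂ)).injOn
    have h3 := (h1.subset (Set.sdiff_subset (t := {0}))).isClosed.compl_mem_nhds (x := (0:ℂ))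
      (by simp)
    rw [eventually_nhdsWithin_iff]
    filter_upwards [h3] with s hs hs0
    by_contra hcon
    exact hs ⟨hcon, hs0⟩
  obtain ⟨s, hs1, hs2⟩ := ((hev1.filter_mono nhdsWithin_le_nhds).and hev2).exists
  obtain ⟨u, hu⟩ := hs2
  set c : X →L[ℂ] X := (1 + s) • (1 : X →L[ℂ] X) with hc
  have hcΦ : (1 : X →L[ℂ] X) - c * (B * G * P) = u := by
    rw [hu, hc, smul_mul_assoc, one_mul]
  have hN : A - G - (c - 1) * (P * G * P) = M - s • (P * G * P) := by
    have h1 : c - 1 = s • (1 : X →L[ℂ] X) := by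
      rw [hc, add_smul, one_smul]; abel
    rw [h1, smul_mul_assoc, one_mul, hA]
    abel
  obtain ⟨F, h1, h2, h3, Y, hY⟩ := ring_part P A G B (↑u⁻¹ : X →L[ℂ] X) c hPP hAP hAB hBA hPB hBP
    (fun x => by rw [hc, smul_mul_assoc, one_mul, mul_smul_comm, mul_one])
    (by rw [hcΦ]; exact u.mul_inv) (by rw [hcΦ]; exact u.inv_mul) (by rw [hN]; exact hs1)
  refine ⟨F, h1, h2, h3, ?_⟩
  have h4 : LinearMap.range (F : X →ₗ[ℂ] X) ≤
      (LinearMap.range (G : X →ₗ[ℂ] X)).map ((1 - P : X →L[ℂ] X) : X →ₗ[ℂ] X) := by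
    rintro _ ⟨x, rfl⟩
    refine ⟨G (Y x), ⟨Y x, rfl⟩, ?_⟩
    rw [hY]
    rfl
  exact Submodule.finiteDimensional_of_le h4

end op

end Pool.Agent.J4.H86.DZ
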