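import Pool.Agent.J4.H86.DZ.Area

/-!
Upper and lower area means.
-/

set_option autoImplicit false

open MeasureTheory Metric Set Filter Topology Real
open scoped ENNReal

namespace Pool.Agent.J4.H86.DZ

theorem lint_id (s : ℝ) (hs : 0 < s) : ∫⁻ r in Ioo 0 s, ENNReal.ofReal r = ENNReal.ofReal (s ^ 2 / 2) := by
  rw [← ofReal_integral_eq_lintegral_ofReal]
  · rw [← integral_Ioc_eq_integral_Ioo, ← intervalIntegral.integral_of_le hs.le, integral_id]
    congr 1
    ring
  · exact (continuous_id.integrableOn_Icc (a := 0) (b := s)).mono_set Ioo_subset_Icc_self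
  · filter_upwards [ae_restrict_mem measurableSet_Ioo] with r hr
    exact hr.1.le

theorem meas_aux {f : ℂ → ℂ} {c : ℂ} {R : ℝ} (hf : DifferentiableOn ℂ f (ball c R)) (M : ℝ) :
    ∃ F : ℂ → ℝ≥0∞, Measurable F ∧
      ∀ z ∈ ball c R, F z = ENNReal.ofReal (M - Real.log ‖f z‖) := by
  classical
  have h1 : Measurable ((ball c R).piecewise f 0) :=
    hf.continuousOn.measurable_piecewise continuous_zero.continuousOn measurableSet_ball
  refine ⟨fun z => ENNReal.ofReal (M - Real.log ‖(ball c R).piecewise f 0 z‖), ?_, ?_⟩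
  · exact ENNReal.measurable_ofReal.comp (measurable_const.sub (Real.measurable_log.comp h1.norm))
  · intro z hz
    simp only [Set.piecewise_eq_of_mem _ _ _ hz]

theorem circ_int {f : ℂ → ℂ} {c : ℂ} {r R : ℝ} (hr : 0 < r) (hrR : r < R)
    (hf : DifferentiableOn ℂ f (ball c R)) : CircleIntegrable (fun z => Real.log ‖f z‖) c r := by
  have h1 : AnalyticOnNhd ℂ f (ball c R) := hf.analyticOnNhd isOpen_ball
  refine MeromorphicOn.circleIntegrable_log_norm ?_
  refine (h1.mono ?_).meromorphicOn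
  rw [abs_of_pos hr]
  exact sphere_subset_closedBall.trans (closedBall_subset_ball hrR)

/-- the inner integral -/
theorem inner_eq {f : ℂ → ℂ} {c : ℂ} {r R M : ℝ} (hM0 : 0 ≤ M) (hr : 0 < r) (hrR : r < R)
    (hf : DifferentiableOn ℂ f (ball c R)) (hM : ∀ z ∈ ball c R, ‖f z‖ ≤ Real.exp M) :
    ∫⁻ θ in Ioo (-π) π, ENNReal.ofReal (M - Real.log ‖f (circleMap c r θ)‖) =
      ENNReal.ofReal (2 * π * (M - Real.circleAverage (fun z => Real.log ‖f z‖) c r)) := by
  have hi := circ_int hr hrR hf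
  have hc : CircleIntegrable (fun z => M - Real.log ‖f z‖) c r :=
    (circleIntegrable_const M c r).sub hi
  have h1 := avg_eq (fun z => M - Real.log ‖f z‖) c r
  have h2 : Real.circleAverage (fun z => M - Real.log ‖f z‖) c r =
      M - Real.circleAverage (fun z => Real.log ‖f z‖) c r := by
    rw [Real.circleAverage_fun_sub (circleIntegrable_const M c r) hi, Real.circleAverage_const]
  rw [← h2, ← h1, ofReal_integral_eq_lintegral_ofReal (integrable_of_circle hc)]
  refine Eventually.of_forall fun θ => ?_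
  have h3 : circleMap c r θ ∈ ball c R := by
    rw [mem_ball, dist_eq_norm, circleMap_sub_center, norm_circleMap_zero, abs_of_pos hr]
    exact hrR
  have h4 := hM _ h3
  change 0 ≤ M - Real.log ‖f (circleMap c r θ)‖
  rcases eq_or_ne (f (circleMap c r θ)) 0 with h | h
  · rw [h, norm_zero, Real.log_zero]
    linarith
  · have h5 : Real.log ‖f (circleMap c r θ)‖ ≤ M := by
      rw [Real.log_le_iff_le_exp (norm_pos_iff.2 h)]
      exact h4
    linarith

/-- the area mean, upper bound -/
theorem area_upper {f : ℂ → ℂ} {c : ℂ} {R s M : ℝ} (hM0 : 0 ≤ M) (hs : 0 < s) (hsR : s < R)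
    (hf : DifferentiableOn ℂ f (ball c R)) (hM : ∀ z ∈ ball c R, ‖f z‖ ≤ Real.exp M)
    (h0 : f c ≠ 0) :
    ∫⁻ z in ball c s, ENNReal.ofReal (M - Real.log ‖f z‖) ≤
      ENNReal.ofReal (π * s ^ 2 * (M - Real.log ‖f c‖)) := by
  obtain ⟨F, hF, hFe⟩ := meas_aux hf M
  have hR : 0 < R := hs.trans hsR
  have hu0 : 0 ≤ M - Real.log ‖f c‖ := by
    have h5 : Real.log ‖f c‖ ≤ M := by
      rw [Real.log_le_iff_le_exp (norm_pos_iff.2 h0)]
      exact hM c (mem_ball_self hR)
    linarith
  calc ∫⁻ z in ball c s, ENNReal.ofReal (M - Real.log ‖f z‖)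
      = ∫⁻ z in ball c s, F z := by
        refine setLIntegral_congr_fun measurableSet_ball fun z hz => ?_
        exact (hFe z (ball_subset_ball hsR.le hz)).symm
    _ = ∫⁻ r in Ioo 0 s, ENNReal.ofReal r * ∫⁻ θ in Ioo (-π) π, F (circleMap c r θ) :=
        lint_ball F hF c s
    _ ≤ ∫⁻ r in Ioo 0 s, ENNReal.ofReal r * ENNReal.ofReal (2 * π * (M - Real.log ‖f c‖)) := by
        refine setLIntegral_mono' measurableSet_Ioo fun r hr => ?_
        gcongr
        have h1 : ∀ θ, F (circleMap c r θ) = ENNReal.ofReal (M - Real.log ‖f (circleMap c r θ)‖) := by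
          intro θ
          refine hFe _ ?_
          rw [mem_ball, dist_eq_norm, circleMap_sub_center, norm_circleMap_zero, abs_of_pos hr.1]
          exact hr.2.trans hsR
        simp only [h1]
        rw [inner_eq hM0 hr.1 (hr.2.trans hsR) hf hM]
        refine ENNReal.ofReal_le_ofReal ?_
        have h2 := jensen_circle (f := f) hr.1
          ((hf.analyticOnNhd isOpen_ball).mono (closedBall_subset_ball (hr.2.trans hsR))) h0
        have hπ := Real.pi_pos
        gcongr
    _ = ENNReal.ofReal (π * s ^ 2 * (M - Real.log ‖f c‖)) := by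
        rw [lintegral_mul_const _ ENNReal.measurable_ofReal, lint_id s hs,
          ← ENNReal.ofReal_mul (by positivity)]
        congr 1
        ring

/-- the area mean, lower bound by another analytic function -/
theorem area_lower {f g : ℂ → ℂ} {c : ℂ} {R t M : ℝ} (hM0 : 0 ≤ M) (ht : 0 < t) (htR : t < R)
    (hf : DifferentiableOn ℂ f (ball c R)) (hM : ∀ z ∈ ball c R, ‖f z‖ ≤ Real.exp M)
    (hg : DifferentiableOn ℂ g (ball c R))
    (hfg : ∀ z ∈ ball c R, ‖f z‖ * ‖g z‖ ≤ Real.exp M)
    (hf0 : ∃ z ∈ ball c R, f z ≠ 0) (hg0 : g c ≠ 0) :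
    ENNReal.ofReal (π * t ^ 2 * Real.log ‖g c‖) ≤
      ∫⁻ z in ball c t, ENNReal.ofReal (M - Real.log ‖f z‖) := by
  obtain ⟨F, hF, hFe⟩ := meas_aux hf M
  have hR : 0 < R := ht.trans htR
  have hfa := hf.analyticOnNhd isOpen_ball
  have hga := hg.analyticOnNhd isOpen_ball
  have hconn : IsConnected (ball c R) := (convex_ball c R).isConnected ⟨c, mem_ball_self hR⟩
  obtain ⟨z₀, hz₀, hz₀'⟩ := hf0
  have hcf := hfa.preimage_zero_mem_codiscreteWithin hz₀' hz₀ hconn
  have hcg := hga.preimage_zero_mem_codiscreteWithin hg0 (mem_ball_self hR) hconn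
  calc ENNReal.ofReal (π * t ^ 2 * Real.log ‖g c‖)
      ≤ ∫⁻ r in Ioo 0 t, ENNReal.ofReal r * ENNReal.ofReal (2 * π * Real.log ‖g c‖) := by
        rw [lintegral_mul_const _ ENNReal.measurable_ofReal, lint_id t ht,
          ← ENNReal.ofReal_mul (by positivity)]
        refine ENNReal.ofReal_le_ofReal (le_of_eq ?_)
        ring
    _ ≤ ∫⁻ r in Ioo 0 t, ENNReal.ofReal r * ∫⁻ θ in Ioo (-π) π, F (circleMap c r θ) := by
        refine setLIntegral_mono' measurableSet_Ioo fun r hr => ?_
        gcongr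
        have hrR : r < R := hr.2.trans htR
        have h1 : ∀ θ, F (circleMap c r θ) = ENNReal.ofReal (M - Real.log ‖f (circleMap c r θ)‖) := by
          intro θ
          refine hFe _ ?_
          rw [mem_ball, dist_eq_norm, circleMap_sub_center, norm_circleMap_zero, abs_of_pos hr.1]
          exact hrR
        simp only [h1]
        rw [inner_eq hM0 hr.1 hrR hf hM]
        refine ENNReal.ofReal_le_ofReal ?_
        have hπ := Real.pi_pos
        have h2 := jensen_circle (f := g) hr.1 (hga.mono (closedBall_subset_ball hrR)) hg0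
        have hif := circ_int hr.1 hrR hf
        have hig := circ_int hr.1 hrR hg
        have hsub : sphere c |r| ⊆ ball c R := by
          rw [abs_of_pos hr.1]
          exact sphere_subset_closedBall.trans (closedBall_subset_ball hrR)
        have h3 : Real.circleAverage (fun z => Real.log ‖f z‖) c r +
            Real.circleAverage (fun z => Real.log ‖g z‖) c r ≤ M := by
          rw [← Real.circleAverage_fun_add hif hig]
          have h4 : Real.circleAverage (fun z => Real.log ‖f z‖ + Real.log ‖g z‖) c r =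
              Real.circleAverage (fun z => Real.log ‖f z * g z‖) c r := by
            refine Real.circleAverage_congr_codiscreteWithin ?_ hr.1.ne'
            filter_upwards [codiscreteWithin_mono hsub hcf, codiscreteWithin_mono hsub hcg]
              with z hz1 hz2
            rw [norm_mul, Real.log_mul (norm_ne_zero_iff.2 hz1) (norm_ne_zero_iff.2 hz2)]
          rw [h4]
          refine Real.circleAverage_mono_on_of_le_circle (circ_int hr.1 hrR (hf.mul hg)) ?_
          intro z hz
          have hzR := hsub hz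
          have h5 := hfg z hzR
          rw [← norm_mul] at h5
          rcases eq_or_ne (f z * g z) 0 with h | h
          · rw [h, norm_zero, Real.log_zero]
            exact hM0
          · rw [Real.log_le_iff_le_exp (norm_pos_iff.2 h)]
            exact h5
        have h6 : Real.log ‖g c‖ ≤ M - Real.circleAverage (fun z => Real.log ‖f z‖) c r := by
          linarith
        gcongr
    _ = ∫⁻ z in ball c t, F z := (lint_ball F hF c t).symm
    _ = ∫⁻ z in ball c t, ENNReal.ofReal (M - Real.log ‖f z‖) := by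
        refine setLIntegral_congr_fun measurableSet_ball fun z hz => ?_
        exact hFe z (ball_subset_ball htR.le hz)

/-- `f` does not vanish almost everywhere -/
theorem ae_ne {f : ℂ → ℂ} {b : ℂ} {R : ℝ} (hR : 0 < R) (hf : DifferentiableOn ℂ f (ball b R))
    (h0 : f b ≠ 0) : ∀ᵐ z ∂(volume.restrict (ball b R)), f z ≠ 0 := by
  have hconn : IsConnected (ball b R) := (convex_ball b R).isConnected ⟨b, mem_ball_self hR⟩
  have h1 := (hf.analyticOnNhd isOpen_ball).preimage_zero_mem_codiscreteWithin h0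
    (mem_ball_self hR) hconn
  exact ae_restrict_le_codiscreteWithin measurableSet_ball h1

theorem u_nonneg {f : ℂ → ℂ} {z : ℂ} {M : ℝ} (h : ‖f z‖ ≤ Real.exp M) (h0 : f z ≠ 0) :
    0 ≤ M - Real.log ‖f z‖ := by
  have h5 : Real.log ‖f z‖ ≤ M := by
    rw [Real.log_le_iff_le_exp (norm_pos_iff.2 h0)]
    exact h
  linarith

/-- the next base point -/
theorem step {f : ℂ → ℂ} {b p : ℂ} {R s t M : ℝ} (hM0 : 0 ≤ M) (ht : 0 < t) (hs : 0 < s)
    (hsR : s < R) (hf : DifferentiableOn ℂ f (ball b R))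
    (hM : ∀ z ∈ ball b R, ‖f z‖ ≤ Real.exp M) (h0 : f b ≠ 0) (hsub : ball p t ⊆ ball b s) :
    ∃ b' ∈ ball p t, f b' ≠ 0 ∧
      M - Real.log ‖f b'‖ ≤ (s / t) ^ 2 * (M - Real.log ‖f b‖) := by
  by_contra hcon
  push Not at hcon
  have hR : 0 < R := hs.trans hsR
  have hu : 0 ≤ M - Real.log ‖f b‖ := u_nonneg (hM b (mem_ball_self hR)) h0
  set c : ℝ := (s / t) ^ 2 * (M - Real.log ‖f b‖) with hc
  have hc0 : 0 ≤ c := by positivity
  have hpR : ball p t ⊆ ball b R := hsub.trans (ball_subset_ball hsR.le)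
  obtain ⟨F, hF, hFe⟩ := meas_aux hf M
  have h1 : ∫⁻ z in ball p t, F z ≤ ENNReal.ofReal (π * s ^ 2 * (M - Real.log ‖f b‖)) := by
    calc ∫⁻ z in ball p t, F z ≤ ∫⁻ z in ball b s, F z := lintegral_mono_set hsub
      _ = ∫⁻ z in ball b s, ENNReal.ofReal (M - Real.log ‖f z‖) := by
          refine setLIntegral_congr_fun measurableSet_ball fun z hz => ?_
          exact hFe z (ball_subset_ball hsR.le hz)
      _ ≤ _ := area_upper hM0 hs hsR hf hM h0
  have h2 : ∫⁻ _z in ball p t, ENNReal.ofReal c < ∫⁻ z in ball p t, F z := by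
    refine lintegral_strict_mono ?_ hF.aemeasurable ?_ ?_
    · rw [Ne, Measure.restrict_eq_zero]
      exact (measure_ball_pos volume p ht).ne'
    · rw [lintegral_const, Measure.restrict_apply_univ]
      exact ENNReal.mul_ne_top ENNReal.ofReal_ne_top measure_ball_lt_top.ne
    · have h3 : ∀ᵐ z ∂(volume.restrict (ball p t)), f z ≠ 0 :=
        ae_restrict_of_ae_restrict_of_subset hpR (ae_ne hR hf h0)
      filter_upwards [h3, ae_restrict_mem measurableSet_ball] with z hz1 hz2
      rw [hFe z (hpR hz2)]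
      have h4 := hcon z hz2 hz1
      exact (ENNReal.ofReal_lt_ofReal_iff (hc0.trans_lt h4)).2 h4
  rw [lintegral_const, Measure.restrict_apply_univ, Complex.volume_ball] at h2
  have h3 : ENNReal.ofReal c * (ENNReal.ofReal t ^ 2 * NNReal.pi) =
      ENNReal.ofReal (π * s ^ 2 * (M - Real.log ‖f b‖)) := by
    rw [← ENNReal.ofReal_pow ht.le, ← ENNReal.ofReal_coe_nnreal, ← ENNReal.ofReal_mul (by positivity),
      ← ENNReal.ofReal_mul hc0]
    congr 1
    rw [hc, NNReal.coe_real_pi]
    field_simp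
  rw [h3] at h2
  exact absurd h1 (not_le.2 h2)

/-- the bound of a quotient -/
theorem bound {B : Type} [NormedAddCommGroup B] [NormedSpace ℂ B] {f : ℂ → ℂ} {h : ℂ → B}
    {b p : ℂ} {R s t t' M : ℝ} (hM0 : 0 ≤ M) (ht : 0 < t) (htt : t < t') (hs : 0 < s)
    (hsR : s < R) (hf : DifferentiableOn ℂ f (ball b R))
    (hM : ∀ z ∈ ball b R, ‖f z‖ ≤ Real.exp M) (h0 : f b ≠ 0) (hsub : ball p t' ⊆ ball b s)
    (hh : DifferentiableOn ℂ h (ball b R)) (hfh : ∀ z ∈ ball b R, ‖f z‖ * ‖h z‖ ≤ Real.exp M) :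
    ‖h p‖ ≤ Real.exp ((s / t) ^ 2 * (M - Real.log ‖f b‖)) := by
  rcases eq_or_ne (h p) 0 with hp | hp
  · rw [hp, norm_zero]
    exact (Real.exp_pos _).le
  have hR : 0 < R := hs.trans hsR
  have hpR : ball p t' ⊆ ball b R := hsub.trans (ball_subset_ball hsR.le)
  have hu : 0 ≤ M - Real.log ‖f b‖ := u_nonneg (hM b (mem_ball_self hR)) h0
  obtain ⟨φ, hφ1, hφ2⟩ := exists_dual_vector ℂ (h p) (norm_ne_zero_iff.2 hp)
  set g : ℂ → ℂ := fun z => φ (h z) with hg
  have hgle : ∀ z, ‖g z‖ ≤ ‖h z‖ := by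
    intro z
    have := φ.le_opNorm (h z)
    rwa [hφ1, one_mul] at this
  have hgp : ‖g p‖ = ‖h p‖ := by
    change ‖φ (h p)‖ = ‖h p‖
    rw [hφ2]
    simp
  have hgd : DifferentiableOn ℂ g (ball p t') :=
    φ.differentiable.comp_differentiableOn (hh.mono hpR)
  have hg0 : g p ≠ 0 := by
    rw [← norm_ne_zero_iff, hgp]
    exact norm_ne_zero_iff.2 hp
  obtain ⟨b', hb'1, hb'2, -⟩ := step hM0 (ht.trans htt) hs hsR hf hM h0 hsub
  have h1 := area_lower (f := f) (g := g) (c := p) hM0 ht htt (hf.mono hpR)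
    (fun z hz => hM z (hpR hz)) hgd (fun z hz => (mul_le_mul_of_nonneg_left (hgle z)
      (norm_nonneg _)).trans (hfh z (hpR hz))) ⟨b', hb'1, hb'2⟩ hg0
  have h2 : ∫⁻ z in ball p t, ENNReal.ofReal (M - Real.log ‖f z‖) ≤
      ENNReal.ofReal (π * s ^ 2 * (M - Real.log ‖f b‖)) :=
    (lintegral_mono_set ((ball_subset_ball htt.le).trans hsub)).trans
      (area_upper hM0 hs hsR hf hM h0)
  have h3 := h1.trans h2
  rw [ENNReal.ofReal_le_ofReal_iff (by positivity), hgp] at h3
  have h4 : Real.log ‖h p‖ ≤ (s / t) ^ 2 * (M - Real.log ‖f b‖) := by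
    have hπ := Real.pi_pos
    have h5 : 0 < π * t ^ 2 := by positivity
    have h6 : (s / t) ^ 2 * (M - Real.log ‖f b‖) =
        π * s ^ 2 * (M - Real.log ‖f b‖) / (π * t ^ 2) := by
      field_simp
    rw [h6, le_div_iff₀ h5]
    linarith
  rw [Real.log_le_iff_le_exp (norm_pos_iff.2 hp)] at h4
  exact h4

end Pool.Agent.J4.H86.DZ
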